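import Pool.Agent.Lib_helper41.NLF.SYM
import Pool.Agent.Lib_helper41.NLF.GAML
import Pool.Agent.Lib_helper39.LVK.DefsZ

/-!
# LVK part O: one Hecke character (MP_77948b_nt)
-/

namespace Pool.Agent.LVK

open NumberField NumberField.InfinitePlace Complex MeasureTheory Filter Topology
open Pool.Agent.HZ Pool.Agent.AS Pool.Agent.KS Pool.Agent.NL
open scoped ENNReal

variable {K : Type} [Field K] [NumberField K]

/-- the functional equation -/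
theorem o_fe {𝔮 : Ideal (𝓞 K)} {κ : InfinitePlace K → ℤ}
    (hκ : ∀ w : InfinitePlace K, w.IsReal → κ w = 0 ∨ κ w = 1) {lam : InfinitePlace K → ℝ}
    (hlam : ∑ w, lam w = 0) (h𝔮 : 𝔮 ≠ ⊥) (h𝔮' : 𝔮 ≠ ⊤)
    {χ : MulChar (𝓞 K ⧸ 𝔮) ℂ} (hχ : IsPrim 𝔮 χ) {ψ : Ideal (𝓞 K) →* ℂ}
    (hψ : IsHecke 𝔮 κ lam χ ψ) {Λ : ℂ → ℂ} (hΛ : IsCompleted κ lam ψ Λ) :
    ∃ Ω : ℂ, ‖Ω‖ = 1 ∧ ∀ s, Λ s =
      Ω * cexp (-((s - 1 / 2) * (Real.log (Pool.Agent.HZ.cond 𝔮) : ℝ))) *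
        starRingEnd ℂ (Λ (1 - starRingEnd ℂ s)) := by
  obtain ⟨C₀, hC₀, hmel⟩ := mellin_kint (K := K)
  have hψ1 := nzk_psi_le hψ
  have hψ0 := nzk_psi_bot h𝔮' hψ
  obtain ⟨CG, hG⟩ := Gf_good κ
  have hcont : Continuous (Dser ψ (Gf κ lam)) := Dser_continuous (hG lam) hψ1 hψ0
  have hdiff : Differentiable ℂ (nzk_F κ lam ψ) := by
    refine entire_of_decay hcont fun A => ?_
    obtain ⟨C, hC, h⟩ := nzk_D_le κ hκ (A := max A 1) (lt_of_lt_of_le (by norm_num)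
      (le_max_right A 1))
    refine ⟨C * Real.exp (max A 1 * Real.log (Pool.Agent.HZ.cond 𝔮)), fun u => ?_⟩
    refine (h 𝔮 h𝔮 h𝔮' χ hχ lam hlam ψ hψ u).trans ?_
    refine mul_le_mul_of_nonneg_left (Real.exp_le_exp.2 ?_) (by positivity)
    exact neg_le_neg (mul_le_mul_of_nonneg_right (le_max_left _ _) (abs_nonneg _))
  have hF : ∀ s, nzk_F κ lam ψ s = C₀ * Λ s :=
    nzk_F_eq κ lam ψ hψ1 hψ0 C₀ (fun s hs => (hmel κ lam s hs).2) hdiff Λ hΛ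
  obtain ⟨Ω, hΩ, hfe⟩ := dser_fe hκ hlam h𝔮 h𝔮' hχ hψ
  set ℓ : ℝ := Real.log (Pool.Agent.HZ.cond 𝔮) with hℓ
  have hC : (C₀ : ℂ) ≠ 0 := by exact_mod_cast hC₀.ne'
  refine ⟨Ω, hΩ, fun s => ?_⟩
  have h1 := nzk_F_fe κ lam ψ Ω ℓ hfe s
  rw [hF, hF, map_mul, Complex.conj_ofReal] at h1
  have h2 : (C₀ : ℂ) * Λ s = C₀ * (Ω * cexp (-((s - 1 / 2) * ℓ)) *
      starRingEnd ℂ (Λ (1 - starRingEnd ℂ s))) := by
    rw [h1]
    ring
  exact mul_left_cancel₀ hC h2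

/-- the factor making `Λ` real on the critical line -/
noncomputable def ofac (w : ℂ) (ℓ : ℝ) (s : ℂ) : ℂ := w * cexp ((s - 1 / 2) * (ℓ / 2 : ℝ))

theorem ofac_ne {w : ℂ} (hw : w ≠ 0) (ℓ : ℝ) (s : ℂ) : ofac w ℓ s ≠ 0 :=
  mul_ne_zero hw (Complex.exp_ne_zero _)

theorem ofac_diff (w : ℂ) (ℓ : ℝ) : Differentiable ℂ (ofac w ℓ) := by
  unfold ofac
  fun_prop

theorem ofac_logDeriv {w : ℂ} (hw : w ≠ 0) (ℓ : ℝ) (s : ℂ) :
    logDeriv (ofac w ℓ) s = ((ℓ / 2 : ℝ) : ℂ) := by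
  have h1 : HasDerivAt (ofac w ℓ) (w * (cexp ((s - 1 / 2) * (ℓ / 2 : ℝ)) *
      (1 * ((ℓ / 2 : ℝ) : ℂ)))) s := by
    unfold ofac
    exact ((((hasDerivAt_id s).sub_const (1 / 2)).mul_const _).cexp).const_mul w
  rw [logDeriv_apply, h1.deriv]
  unfold ofac
  have h2 := Complex.exp_ne_zero ((s - 1 / 2) * (ℓ / 2 : ℝ))
  field_simp

/-- symmetric normalization -/
theorem o_sym {Λ : ℂ → ℂ} {Ω : ℂ} (hΩ : ‖Ω‖ = 1) {ℓ : ℝ} (hfe : ∀ s, Λ s =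
      Ω * cexp (-((s - 1 / 2) * (ℓ : ℝ))) * starRingEnd ℂ (Λ (1 - starRingEnd ℂ s))) :
    ∃ w : ℂ, w ≠ 0 ∧ ∀ s, ofac w ℓ (1 - starRingEnd ℂ s) * Λ (1 - starRingEnd ℂ s) =
      starRingEnd ℂ (ofac w ℓ s * Λ s) := by
  obtain ⟨v, hv⟩ := IsAlgClosed.exists_pow_nat_eq Ω (n := 2) (by norm_num)
  have hv1 : ‖v‖ = 1 := by
    have h1 : ‖v‖ ^ 2 = 1 := by rw [← norm_pow, hv, hΩ]
    exact (pow_eq_one_iff_of_nonneg (norm_nonneg v) (by norm_num)).1 h1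
  have hvv : v * starRingEnd ℂ v = 1 := by
    rw [Complex.mul_conj, Complex.normSq_eq_norm_sq, hv1]
    norm_num
  have hv0 : v ≠ 0 := by
    intro h
    rw [h, norm_zero] at hv1
    exact zero_ne_one hv1
  refine ⟨starRingEnd ℂ v, (map_ne_zero _).2 hv0, fun s => ?_⟩
  have h1 := hfe (1 - starRingEnd ℂ s)
  have h2 : 1 - starRingEnd ℂ (1 - starRingEnd ℂ s) = s := by
    rw [map_sub, map_one, Complex.conj_conj]
    ring
  rw [h2] at h1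
  rw [h1]
  unfold ofac
  rw [map_mul, map_mul, Complex.conj_conj, ← Complex.exp_conj]
  have h3 : starRingEnd ℂ ((s - 1 / 2) * (ℓ / 2 : ℝ)) =
      (starRingEnd ℂ s - 1 / 2) * (ℓ / 2 : ℝ) := by
    simp only [map_mul, map_sub, map_one, map_div₀, Complex.conj_ofReal, map_ofNat]
  have h4 : cexp (-((1 - starRingEnd ℂ s - 1 / 2) * (ℓ : ℝ))) =
      cexp ((starRingEnd ℂ s - 1 / 2) * (ℓ / 2 : ℝ)) *
        cexp ((starRingEnd ℂ s - 1 / 2) * (ℓ / 2 : ℝ)) := by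
    rw [← Complex.exp_add]
    congr 1
    push_cast
    ring
  have h5 : cexp ((1 - starRingEnd ℂ s - 1 / 2) * (ℓ / 2 : ℝ)) *
      cexp ((starRingEnd ℂ s - 1 / 2) * (ℓ / 2 : ℝ)) = 1 := by
    rw [← Complex.exp_add, ← Complex.exp_zero]
    congr 1
    push_cast
    ring
  rw [h3, h4, ← hv]
  calc starRingEnd ℂ v * cexp ((1 - starRingEnd ℂ s - 1 / 2) * (ℓ / 2 : ℝ)) *
      (v ^ 2 * (cexp ((starRingEnd ℂ s - 1 / 2) * (ℓ / 2 : ℝ)) *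
        cexp ((starRingEnd ℂ s - 1 / 2) * (ℓ / 2 : ℝ))) * starRingEnd ℂ (Λ s)) =
      (v * starRingEnd ℂ v) * (cexp ((1 - starRingEnd ℂ s - 1 / 2) * (ℓ / 2 : ℝ)) *
      cexp ((starRingEnd ℂ s - 1 / 2) * (ℓ / 2 : ℝ))) *
      (v * cexp ((starRingEnd ℂ s - 1 / 2) * (ℓ / 2 : ℝ)) * starRingEnd ℂ (Λ s)) := by ring
    _ = _ := by
      rw [hvv, h5]
      ring

/-- the orders do not change -/
theorem o_ord {Λ e : ℂ → ℂ} (hΛ : Differentiable ℂ Λ) (he : Differentiable ℂ e)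
    (he0 : ∀ s, e s ≠ 0) (z : ℂ) :
    analyticOrderNatAt (fun s => e s * Λ s) z = analyticOrderNatAt Λ z := by
  have h2 : analyticOrderAt (fun s => e s * Λ s) z = analyticOrderAt Λ z := by
    have h3 : (fun s => e s * Λ s) = e * Λ := rfl
    rw [h3, analyticOrderAt_mul (he.analyticAt z) (hΛ.analyticAt z),
      (he.analyticAt z).analyticOrderAt_eq_zero.2 (he0 z), zero_add]
  unfold analyticOrderNatAt
  rw [h2]

end Pool.Agent.LVK
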