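import Pool.Agent.Lib_helper39.LVO.O1

/-!
# LVK part O: the Gamma factor and the series near infinity
-/

namespace Pool.Agent.LVK

open NumberField NumberField.InfinitePlace Complex MeasureTheory Filter Topology
open Pool.Agent.HZ Pool.Agent.AS Pool.Agent.KS Pool.Agent.NL
open scoped ENNReal

variable {K : Type} [Field K] [NumberField K]

theorem o_bd {G : ℂ → ℂ} (hG : Differentiable ℂ (fun s => (G s)⁻¹))
    (h0 : ∀ s : ℂ, 0 < s.re → G s ≠ 0) (a b T : ℝ) (ha : 0 < a) :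
    ∃ C : ℝ, 0 ≤ C ∧ ∀ s : ℂ, a ≤ s.re → s.re ≤ b → |s.im| ≤ T → ‖logDeriv G s‖ ≤ C := by
  have hopen : IsOpen {s : ℂ | 0 < s.re} := isOpen_lt continuous_const Complex.continuous_re
  have hGd : DifferentiableOn ℂ G {s : ℂ | 0 < s.re} := by
    have h2 : DifferentiableOn ℂ (fun s : ℂ => ((G s)⁻¹)⁻¹) {s : ℂ | 0 < s.re} :=
      hG.differentiableOn.inv fun s hs => inv_ne_zero (h0 s hs)
    simpa only [inv_inv] using h2
  have hcont : ContinuousOn (logDeriv G) {s : ℂ | 0 < s.re} := by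
    intro s hs
    have h1 : AnalyticAt ℂ G s := hGd.analyticAt (hopen.mem_nhds hs)
    have h2 : AnalyticAt ℂ (logDeriv G) s := by
      unfold logDeriv
      exact h1.deriv.div h1 (h0 s hs)
    exact h2.continuousAt.continuousWithinAt
  have hSc : IsCompact (Set.Icc a b ×ℂ Set.Icc (-T) T) := isCompact_Icc.reProdIm isCompact_Icc
  have hsub : (Set.Icc a b ×ℂ Set.Icc (-T) T) ⊆ {s : ℂ | 0 < s.re} := by
    intro s hs
    exact lt_of_lt_of_le ha hs.1.1
  obtain ⟨M, hM⟩ := hSc.exists_bound_of_continuousOn (hcont.mono hsub)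
  refine ⟨max M 0, le_max_right _ _, fun s h1 h2 h3 => (hM s ⟨⟨h1, h2⟩, abs_le.1 h3⟩).trans
    (le_max_left _ _)⟩

theorem o_inv_ne {G : ℂ → ℂ} {s c : ℂ} : logDeriv (fun z => G (z + c)) s = logDeriv G (s + c) := by
  rw [logDeriv_apply, logDeriv_apply, deriv_comp_add_const]

/-- the logarithmic derivative of the Gamma factor is bounded on compact sets, uniformly -/
theorem o_gam (B a b T : ℝ) (ha : 0 < a) : ∃ C : ℝ, 0 ≤ C ∧
    ∀ (κ : InfinitePlace K → ℤ), (∀ w, |(κ w : ℝ)| ≤ B) →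
    ∀ (lam : InfinitePlace K → ℝ), (∀ w, |lam w| ≤ B) →
    ∀ s : ℂ, a ≤ s.re → s.re ≤ b → |s.im| ≤ T → ‖logDeriv (gam κ lam) s‖ ≤ C := by
  classical
  obtain ⟨C1, hC1, h1⟩ := o_bd Complex.differentiable_Gammaℝ_inv
    (fun s hs => Complex.Gammaℝ_ne_zero_of_re_pos hs) a (b + B) (T + B) ha
  have hC0 : ∀ s : ℂ, 0 < s.re → Gammaℂ s ≠ 0 := by
    intro s hs
    rw [← Complex.Gammaℝ_mul_Gammaℝ_add_one]
    refine mul_ne_zero (Complex.Gammaℝ_ne_zero_of_re_pos hs)
      (Complex.Gammaℝ_ne_zero_of_re_pos ?_)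
    rw [Complex.add_re, Complex.one_re]
    linarith
  obtain ⟨C2, hC2, h2⟩ := o_bd Complex.differentiable_Gammaℂ_inv hC0 a (b + B) (T + B) ha
  refine ⟨Fintype.card (InfinitePlace K) * max C1 C2, by positivity, ?_⟩
  intro κ hκ lam hlam s hs1 hs2 hs3
  have hre1 : ∀ w, (s + ((|κ w| : ℤ) : ℂ) + lam w * I).re = s.re + |(κ w : ℝ)| := by
    intro w
    simp
  have him1 : ∀ w, (s + ((|κ w| : ℤ) : ℂ) + lam w * I).im = s.im + lam w := by
    intro w
    simp
  have e2 : ∀ w, (s + ((|κ w| : ℤ) : ℂ) / 2 + lam w / 2 * I) =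
      s + ((|(κ w : ℝ)| / 2 : ℝ) : ℂ) + ((lam w / 2 : ℝ) : ℂ) * I := by
    intro w
    have h3 : ((|κ w| : ℤ) : ℂ) = ((|(κ w : ℝ)| : ℝ) : ℂ) := by
      rw [← Int.cast_abs, Complex.ofReal_intCast]
    rw [h3]
    push_cast
    rfl
  have hre2 : ∀ w, (s + ((|κ w| : ℤ) : ℂ) / 2 + lam w / 2 * I).re = s.re + |(κ w : ℝ)| / 2 := by
    intro w
    rw [e2]
    simp
  have him2 : ∀ w, (s + ((|κ w| : ℤ) : ℂ) / 2 + lam w / 2 * I).im = s.im + lam w / 2 := by
    intro w
    rw [e2]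
    simp
  set g : InfinitePlace K → ℂ → ℂ := fun w z => if w.IsReal then
    Gammaℝ (z + (((|κ w| : ℤ) : ℂ) + lam w * I)) else
    Gammaℂ (z + (((|κ w| : ℤ) : ℂ) / 2 + lam w / 2 * I)) with hg
  have hgam : gam κ lam = fun z => ∏ w, g w z := by
    funext z
    unfold gam
    refine Finset.prod_congr rfl fun w _ => ?_
    simp only [hg]
    by_cases hw : w.IsReal
    · simp only [hw, if_true]
      congr 1
      ring
    · simp only [hw, if_false]
      congr 1
      ring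
  have hgd : ∀ w, DifferentiableAt ℂ (g w) s ∧ g w s ≠ 0 ∧ ‖logDeriv (g w) s‖ ≤ max C1 C2 := by
    intro w
    have hk0 : 0 ≤ |(κ w : ℝ)| := abs_nonneg _
    have hb : |(κ w : ℝ)| ≤ B := hκ w
    have hB0 : 0 ≤ B := hk0.trans hb
    by_cases hw : w.IsReal
    · have hgw : g w = fun z => Gammaℝ (z + (((|κ w| : ℤ) : ℂ) + lam w * I)) := by
        funext z
        simp only [hg, hw, if_true]
      have hp : 0 < (s + (((|κ w| : ℤ) : ℂ) + lam w * I)).re := by
        rw [← add_assoc, hre1]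
        linarith
      have hne := Complex.Gammaℝ_ne_zero_of_re_pos hp
      rw [hgw]
      refine ⟨?_, hne, ?_⟩
      · have h3 : DifferentiableAt ℂ (fun z : ℂ => ((Gammaℝ (z + (((|κ w| : ℤ) : ℂ) +
            lam w * I)))⁻¹)⁻¹) s := by
          refine DifferentiableAt.inv ?_ (inv_ne_zero hne)
          exact (Complex.differentiable_Gammaℝ_inv.comp (by fun_prop)).differentiableAt
        simpa only [inv_inv] using h3
      · rw [o_inv_ne]
        refine (h1 _ ?_ ?_ ?_).trans (le_max_left _ _)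
        · rw [← add_assoc, hre1]
          linarith
        · rw [← add_assoc, hre1]
          linarith
        · rw [← add_assoc, him1]
          exact (abs_add_le _ _).trans (add_le_add hs3 (hlam w))
    · have hgw : g w = fun z => Gammaℂ (z + (((|κ w| : ℤ) : ℂ) / 2 + lam w / 2 * I)) := by
        funext z
        simp only [hg, hw, if_false]
      have hp : 0 < (s + (((|κ w| : ℤ) : ℂ) / 2 + lam w / 2 * I)).re := by
        rw [← add_assoc, hre2]
        linarith
      have hne := hC0 _ hp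
      rw [hgw]
      refine ⟨?_, hne, ?_⟩
      · have h3 : DifferentiableAt ℂ (fun z : ℂ => ((Gammaℂ (z + (((|κ w| : ℤ) : ℂ) / 2 +
            lam w / 2 * I)))⁻¹)⁻¹) s := by
          refine DifferentiableAt.inv ?_ (inv_ne_zero hne)
          exact (Complex.differentiable_Gammaℂ_inv.comp (by fun_prop)).differentiableAt
        simpa only [inv_inv] using h3
      · rw [o_inv_ne]
        refine (h2 _ ?_ ?_ ?_).trans (le_max_right _ _)
        · rw [← add_assoc, hre2]
          linarith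
        · rw [← add_assoc, hre2]
          linarith
        · rw [← add_assoc, him2]
          refine (abs_add_le _ _).trans (add_le_add hs3 ?_)
          rw [abs_div, abs_two]
          have := hlam w
          linarith
  have hprod : logDeriv (fun z => ∏ w, g w z) s = ∑ w, logDeriv (g w) s := by
    exact logDeriv_prod (s := Finset.univ) (fun w _ => (hgd w).2.1) (fun w _ => (hgd w).1)
  rw [hgam, hprod]
  refine (norm_sum_le _ _).trans ?_
  refine (Finset.sum_le_sum fun w _ => (hgd w).2.2).trans ?_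
  rw [Finset.sum_const, Finset.card_univ, nsmul_eq_mul]

/-- Dirichlet series with first coefficient one are close to one far to the right -/
theorem o_far (K : Type) [Field K] [NumberField K] : ∃ S : ℝ, 4 ≤ S ∧
    ∀ c : (PK K →₀ ℕ) → ℂ, c 0 = 1 → (∀ g, ‖c g‖ ≤ 3 * (nm (NK K) g : ℝ)) →
    ∀ s : ℂ, S - 1 ≤ s.re →
      ‖∑' g, c g * (nm (NK K) g : ℂ) ^ (-s) - 1‖ ≤ 1 / 16 := by
  classical
  set Z : ℝ := ∑' g : PK K →₀ ℕ, (nm (NK K) g : ℝ) ^ (-(2 : ℝ)) with hZ
  have hsum2 : Summable fun g : PK K →₀ ℕ => (nm (NK K) g : ℝ) ^ (-(2 : ℝ)) :=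
    nzk_summable (K := K) (by norm_num)
  have hZ0 : 0 ≤ Z := tsum_nonneg fun g => Real.rpow_nonneg (Nat.cast_nonneg _) _
  obtain ⟨n, hn⟩ := exists_nat_gt (48 * Z)
  refine ⟨n + 4, by linarith [(Nat.cast_nonneg n : (0 : ℝ) ≤ n)], ?_⟩
  intro c hc0 hc s hs
  have hσ : (n : ℝ) + 3 ≤ s.re := by linarith
  have hn0 : (0 : ℝ) ≤ n := Nat.cast_nonneg n
  have hterm : ∀ g : PK K →₀ ℕ, g ≠ 0 → ‖c g * (nm (NK K) g : ℂ) ^ (-s)‖ ≤
      3 * (2 : ℝ) ^ (-(n : ℝ)) * (nm (NK K) g : ℝ) ^ (-(2 : ℝ)) := by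
    intro g hg
    have hpos := nm_pos two_le_NK g
    have hpos' : (0 : ℝ) < nm (NK K) g := by exact_mod_cast hpos
    have h2 : (2 : ℝ) ≤ nm (NK K) g := by
      have : 2 ≤ nm (NK K) g := by
        have h3 : nm (NK K) g ≠ 1 := fun h => hg ((nm_eq_one two_le_NK).1 h)
        omega
      exact_mod_cast this
    rw [norm_mul, Complex.norm_natCast_cpow_of_pos hpos, Complex.neg_re]
    calc ‖c g‖ * (nm (NK K) g : ℝ) ^ (-s.re) ≤
        (3 * (nm (NK K) g : ℝ)) * (nm (NK K) g : ℝ) ^ (-(n + 3 : ℝ)) := by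
          apply mul_le_mul (hc g) _ (Real.rpow_nonneg hpos'.le _) (by positivity)
          apply Real.rpow_le_rpow_of_exponent_le (by linarith)
          linarith
      _ = 3 * (nm (NK K) g : ℝ) ^ (-(n : ℝ)) * (nm (NK K) g : ℝ) ^ (-(2 : ℝ)) := by
          rw [mul_assoc, mul_assoc, ← Real.rpow_add hpos']
          congr 1
          nth_rewrite 1 [← Real.rpow_one (nm (NK K) g : ℝ)]
          rw [← Real.rpow_add hpos']
          congr 1
          ring
      _ ≤ _ := by
          apply mul_le_mul_of_nonneg_right _ (Real.rpow_nonneg hpos'.le _)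
          apply mul_le_mul_of_nonneg_left _ (by norm_num)
          exact Real.rpow_le_rpow_of_nonpos (by norm_num) h2 (by linarith)
  have hf0 : c 0 * (nm (NK K) 0 : ℂ) ^ (-s) = 1 := by
    rw [hc0, nm_zero]
    simp
  have hsumm : Summable fun g : PK K →₀ ℕ => c g * (nm (NK K) g : ℂ) ^ (-s) := by
    refine Summable.of_norm_bounded ((hsum2.mul_left (3 * (2 : ℝ) ^ (-(n : ℝ)))).add
      (summable_of_ne_finset_zero (s := {0}) (f := fun g : PK K →₀ ℕ =>
        if g = 0 then (1 : ℝ) else 0) (fun g hg => if_neg (by simpa using hg)))) fun g => ?_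
    by_cases hg : g = 0
    · subst hg
      rw [hf0, norm_one, if_pos rfl]
      have : 0 ≤ 3 * (2 : ℝ) ^ (-(n : ℝ)) * (nm (NK K) (0 : PK K →₀ ℕ) : ℝ) ^ (-(2 : ℝ)) := by
        positivity
      linarith
    · rw [if_neg hg, add_zero]
      exact hterm g hg
  rw [hsumm.tsum_eq_add_tsum_ite 0, hf0, add_sub_cancel_left]
  have h4 : ‖∑' g : PK K →₀ ℕ, if g = 0 then 0 else c g * (nm (NK K) g : ℂ) ^ (-s)‖ ≤
      ∑' g : PK K →₀ ℕ, 3 * (2 : ℝ) ^ (-(n : ℝ)) * (nm (NK K) g : ℝ) ^ (-(2 : ℝ)) := by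
    refine tsum_of_norm_bounded (hsum2.mul_left _).hasSum fun g => ?_
    by_cases hg : g = 0
    · rw [if_pos hg, norm_zero]
      positivity
    · rw [if_neg hg]
      exact hterm g hg
  refine h4.trans ?_
  rw [tsum_mul_left, ← hZ]
  have hn1 : (0 : ℝ) < n := by linarith [mul_nonneg (by norm_num : (0 : ℝ) ≤ 48) hZ0]
  have h5 : (2 : ℝ) ^ (-(n : ℝ)) ≤ 1 / n := by
    rw [Real.rpow_neg (by norm_num), Real.rpow_natCast, ← one_div]
    apply one_div_le_one_div_of_le hn1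
    exact_mod_cast (Nat.lt_two_pow_self (n := n)).le
  calc 3 * (2 : ℝ) ^ (-(n : ℝ)) * Z ≤ 3 * (1 / n) * Z := by
        apply mul_le_mul_of_nonneg_right _ hZ0
        linarith
    _ = 3 * Z / n := by ring
    _ ≤ 1 / 16 := by
        rw [div_le_div_iff₀ hn1 (by norm_num)]
        linarith

end Pool.Agent.LVK
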